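import Pool.Agent.V11131.PosComp7

/-!
# MP_204515_an: `G(M_m(A)) = G(A)` for unital C*-algebras
-/

namespace Pool.Agent.Results.MP_204515_an.UnitalAmplification

open Pool.Agent.V11131.PosComp

universe u

theorem result (A : Type u) [CStarAlgebra A] [PartialOrder A] [StarOrderedRing A]
    [Nontrivial A] (m : ℕ) (hm : 1 ≤ m) (n : ℕ) (Γ : SimpleGraph (Fin n)) :
    InG (CStarMatrix (Fin m) (Fin m) A) Γ ↔ InG A Γ := by
  have : Nonempty (Fin m) := ⟨⟨0, hm⟩⟩
  exact matrix_iff Γ

end Pool.Agent.Results.MP_204515_an.UnitalAmplification
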